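import Mathlib

/-!
# Symmetric tensor powers of a graph need not be nested

For the (loopless) 4-cycle the second symmetric tensor power contains a triangle, while every
odd symmetric tensor power is bipartite.
-/

namespace Pool.Agent.Results.MP_6750b5_co.NotNested

open Classical

/-- The vertices of the `k`-th symmetric tensor power of a graph on `n` vertices: the
nondecreasing `k`-tuples. -/
abbrev SymVertex (n k : ℕ) : Type := {i : Fin k → Fin n // Monotone i}

/-- The multiplicity of `a` in the tuple `i`. -/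
noncomputable def mult {n k : ℕ} (i : Fin k → Fin n) (a : Fin n) : ℕ :=
  (Finset.univ.filter (fun l => i l = a)).card

/-- The multinomial coefficient `k! / (m_1! ⋯ m_n!)` of the multiplicities of `i`. -/
noncomputable def multinomial {n k : ℕ} (i : Fin k → Fin n) : ℝ :=
  (k.factorial : ℝ) / ∏ a : Fin n, ((mult i a).factorial : ℝ)

/-- The set of all rearrangements of the tuple `i`. -/
noncomputable def orb {n k : ℕ} (i : Fin k → Fin n) : Finset (Fin k → Fin n) :=
  Finset.univ.filter (fun p => ∃ σ : Equiv.Perm (Fin k), p = i ∘ σ)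

/-- The weight function of the graph with adjacency relation `adj`. -/
noncomputable def omega {n : ℕ} (adj : Fin n → Fin n → Prop) (a b : Fin n) : ℝ :=
  if adj a b then 1 else 0

/-- The edge weights of the `k`-th symmetric tensor power. -/
noncomputable def symWeight {n : ℕ} (adj : Fin n → Fin n → Prop) (k : ℕ)
    (i j : SymVertex n k) : ℝ :=
  (Real.sqrt (multinomial i.1 * multinomial j.1))⁻¹ *
    ∑ p ∈ orb i.1, ∑ q ∈ orb j.1, ∏ l : Fin k, omega adj (p l) (q l)

/-- The 4-cycle `0 - 2 - 1 - 3 - 0` (parts `{0, 1}` and `{2, 3}`). -/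
def C4 (a b : Fin 4) : Prop := (a.val < 2 ∧ 2 ≤ b.val) ∨ (b.val < 2 ∧ 2 ≤ a.val)

/-- The number of entries of the tuple in the part `{0, 1}`. -/
noncomputable def low {k : ℕ} (i : Fin k → Fin 4) : ℕ :=
  (Finset.univ.filter (fun l => (i l).val < 2)).card

theorem omega_nonneg {n : ℕ} (adj : Fin n → Fin n → Prop) (a b : Fin n) : 0 ≤ omega adj a b := by
  unfold omega; split_ifs <;> norm_num

theorem low_comp {k : ℕ} (i : Fin k → Fin 4) (σ : Equiv.Perm (Fin k)) : low (i ∘ σ) = low i := by
  unfold low
  refine Finset.card_bij (fun l _ => σ l) ?_ ?_ ?_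
  · intro l hl
    simpa using hl
  · intro a _ b _ h
    exact σ.injective h
  · intro b hb
    exact ⟨σ.symm b, by simpa using hb, by simp⟩

/-- If the weight between `i` and `j` is positive then the numbers of entries in the part `{0, 1}`
add up to `k`. -/
theorem low_add {k : ℕ} {i j : SymVertex 4 k} (h : 0 < symWeight C4 k i j) :
    low i.1 + low j.1 = k := by
  have h1 : (∑ p ∈ orb i.1, ∑ q ∈ orb j.1, ∏ l : Fin k, omega C4 (p l) (q l)) ≠ 0 := by
    intro h0
    unfold symWeight at h
    rw [h0, mul_zero] at h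
    exact lt_irrefl _ h
  obtain ⟨p, hp, h2⟩ := Finset.exists_ne_zero_of_sum_ne_zero h1
  obtain ⟨q, hq, h3⟩ := Finset.exists_ne_zero_of_sum_ne_zero h2
  have h4 : ∀ l, C4 (p l) (q l) := by
    intro l
    have := (Finset.prod_ne_zero_iff.1 h3) l (Finset.mem_univ l)
    unfold omega at this
    by_contra hc
    rw [if_neg hc] at this
    exact this rfl
  simp only [orb, Finset.mem_filter, Finset.mem_univ, true_and] at hp hq
  obtain ⟨σ, rfl⟩ := hp
  obtain ⟨τ, rfl⟩ := hq
  rw [← low_comp i.1 σ, ← low_comp j.1 τ]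
  have h5 : (Finset.univ.filter (fun l => (((j.1 ∘ τ) l : Fin 4)).val < 2)) =
      (Finset.univ.filter (fun l => ¬ (((i.1 ∘ σ) l : Fin 4)).val < 2)) := by
    ext l
    simp only [Finset.mem_filter, Finset.mem_univ, true_and]
    have := h4 l
    unfold C4 at this
    omega
  unfold low
  rw [h5, Finset.card_filter_add_card_filter_not]
  simp

/-- The three vertices `(0,2)`, `(0,3)`, `(1,2)` of the second symmetric power. -/
def va : SymVertex 4 2 := ⟨![0, 2], by decide⟩
/-- See `va`. -/
def vb : SymVertex 4 2 := ⟨![0, 3], by decide⟩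
/-- See `va`. -/
def vc : SymVertex 4 2 := ⟨![1, 2], by decide⟩

theorem multinomial_pos {n k : ℕ} (i : Fin k → Fin n) : 0 < multinomial i := by
  unfold multinomial
  refine div_pos (by exact_mod_cast k.factorial_pos) (Finset.prod_pos fun a _ => ?_)
  exact_mod_cast Nat.factorial_pos _

/-- A sufficient condition for positive weight. -/
theorem weight_pos {n k : ℕ} {adj : Fin n → Fin n → Prop} {i j : SymVertex n k}
    (σ : Equiv.Perm (Fin k)) (h : ∀ l, adj (i.1 l) (j.1 (σ l))) : 0 < symWeight adj k i j := by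
  unfold symWeight
  refine mul_pos (inv_pos.2 (Real.sqrt_pos.2 (mul_pos (multinomial_pos _) (multinomial_pos _)))) ?_
  have hnn : ∀ p q : Fin k → Fin n, 0 ≤ ∏ l : Fin k, omega adj (p l) (q l) :=
    fun p q => Finset.prod_nonneg fun l _ => omega_nonneg adj _ _
  have h1 : (0 : ℝ) < ∏ l : Fin k, omega adj (i.1 l) ((j.1 ∘ σ) l) := by
    refine Finset.prod_pos fun l _ => ?_
    unfold omega
    rw [if_pos (show adj (i.1 l) ((j.1 ∘ σ) l) from h l)]
    exact one_pos
  refine lt_of_lt_of_le h1 ?_
  have hi : i.1 ∈ orb i.1 := by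
    simp only [orb, Finset.mem_filter, Finset.mem_univ, true_and]
    exact ⟨1, by simp⟩
  have hj : j.1 ∘ σ ∈ orb j.1 := by
    simp only [orb, Finset.mem_filter, Finset.mem_univ, true_and]
    exact ⟨σ, rfl⟩
  calc ∏ l : Fin k, omega adj (i.1 l) ((j.1 ∘ σ) l)
      ≤ ∑ q ∈ orb j.1, ∏ l : Fin k, omega adj (i.1 l) (q l) :=
        Finset.single_le_sum (f := fun q => ∏ l : Fin k, omega adj (i.1 l) (q l))
          (fun q _ => hnn _ q) hj
    _ ≤ ∑ p ∈ orb i.1, ∑ q ∈ orb j.1, ∏ l : Fin k, omega adj (p l) (q l) :=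
        Finset.single_le_sum (f := fun p => ∑ q ∈ orb j.1, ∏ l : Fin k, omega adj (p l) (q l))
          (fun p _ => Finset.sum_nonneg fun q _ => hnn p q) hi

/-- There is a loopless graph `G` (the 4-cycle) such that for every odd `r ≥ 3` the power `G^{⊙2}`
is not a weighted subgraph of `G^{⊙r}`; the inequality between the weights already has to fail at
some pair of distinct vertices. -/
theorem result : ∃ (n : ℕ) (adj : Fin n → Fin n → Prop),
    (∀ a b, adj a b → adj b a) ∧ (∀ a, ¬ adj a a) ∧
      ∀ r : ℕ, 3 ≤ r → Odd r → ¬ ∃ φ : SymVertex n 2 → SymVertex n r, Function.Injective φ ∧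
        ∀ x y, x ≠ y → symWeight adj 2 x y ≤ symWeight adj r (φ x) (φ y) := by
  refine ⟨4, C4, fun a b h => h.symm, fun a h => by unfold C4 at h; omega, ?_⟩
  rintro r _ hr ⟨φ, _, h⟩
  have hab : va ≠ vb := by
    intro h
    have := congrArg (fun v : SymVertex 4 2 => v.1 1) h
    simp [va, vb] at this
  have hbc : vb ≠ vc := by
    intro h
    have := congrArg (fun v : SymVertex 4 2 => v.1 0) h
    simp [vb, vc] at this
  have hac : va ≠ vc := by
    intro h
    have := congrArg (fun v : SymVertex 4 2 => v.1 0) h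
    simp [va, vc] at this
  have s : ∀ a b c d : Fin 4, ∀ (h1 : C4 a d) (h2 : C4 b c),
      ∀ l : Fin 2, C4 (![a, b] l) (![c, d] (Equiv.swap (0 : Fin 2) 1 l)) := by
    intro a b c d h1 h2 l
    fin_cases l
    · simpa using h1
    · simpa using h2
  have w1 : 0 < symWeight C4 2 va vb := weight_pos (Equiv.swap 0 1)
    (s 0 2 0 3 (by unfold C4; decide) (by unfold C4; decide))
  have w2 : 0 < symWeight C4 2 vb vc := weight_pos (Equiv.swap 0 1)
    (s 0 3 1 2 (by unfold C4; decide) (by unfold C4; decide))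
  have w3 : 0 < symWeight C4 2 va vc := weight_pos (Equiv.swap 0 1)
    (s 0 2 1 2 (by unfold C4; decide) (by unfold C4; decide))
  have e1 := low_add (lt_of_lt_of_le w1 (h va vb hab))
  have e2 := low_add (lt_of_lt_of_le w2 (h vb vc hbc))
  have e3 := low_add (lt_of_lt_of_le w3 (h va vc hac))
  obtain ⟨t, rfl⟩ := hr
  omega

end Pool.Agent.Results.MP_6750b5_co.NotNested
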